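import Pool.Agent.PFD.StmtsD4

/-!
# Squad PFD, part D4: row ULF (helper92)
-/

open scoped BigOperators

noncomputable section

namespace Pool.Agent.PFD.H92

open Pool.Agent.PFC.B1 (BiM FS Sep Split)
open Pool.Agent.PFD.D2
open Pool.Agent.PFD.D2b

theorem ulf (hlcu : LcuStmt) (hrwf : RwfStmt) : D4.UlfStmt := by
  intro R F Γ Γ0 A W I _ _ c _ _ _ _ _ _ _ _ _ _ D f j0 pr0 mu hpj hpl hms hort hmn hctr
  obtain ⟨D0, hD0, -⟩ := hrwf R F Γ Γ0 W I c f D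
  obtain ⟨h1, -⟩ := hlcu F Γ0 W I D0
  obtain ⟨u0, hu0c, hu0⟩ := h1 (mu ∘ₗ j0.toLinearMap) (fun x y => by
    show mu (j0 (x * y)) = mu (j0 (y * x))
    rw [map_mul j0 x y, map_mul j0 y x, hms])
  have hu0' : ∀ γ, mu (j0 γ) = D0.lam (u0 * γ) := hu0
  have hinj : ∀ γ, u0 * γ = 0 → γ = 0 := fun γ hγ => by
    have h2 : ∀ a, mu (j0 γ * a) = 0 := fun a => by
      rw [← hort, hpl, hu0', ← mul_assoc, hγ, zero_mul, map_zero]
    have h3 := hmn _ h2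
    rw [← hpj γ, h3, map_zero]
  have hinj' : Function.Injective (LinearMap.mulLeft F u0) := by
    rw [injective_iff_map_eq_zero]
    exact fun γ hγ => hinj γ hγ
  have hsurj : Function.Surjective (LinearMap.mulLeft F u0) :=
    LinearMap.injective_iff_surjective.1 hinj'
  obtain ⟨w, hw⟩ := hsurj 1
  have hw1 : u0 * w = 1 := hw
  have hunit : IsUnit u0 := ⟨⟨u0, w, hw1, by rw [← hu0c, hw1]⟩, rfl⟩
  obtain ⟨u, hu1, hu2⟩ := hctr u0 hu0c
  refine ⟨u, hu1, by rw [hu2]; exact hunit, fun γ => ?_⟩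
  rw [← hD0, map_mul, hu2, hu0']

end Pool.Agent.PFD.H92
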