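import Pool.Agent.PFD.StmtsD2c

/-!
# Squad PFD, part D2b, block 2: row WGF (helper92)
-/

open scoped BigOperators

noncomputable section

namespace Pool.Agent.PFD.H92

open MulOpposite
open Pool.Agent.PFC.B1 (BiM FS Sep)
open Pool.Agent.PFD.D2
open Pool.Agent.PFD.D2b

/-- reindexing `V = T x W` -/
theorem sum_tw {V X : Type} [CommGroup V] [Fintype V] [AddCommMonoid X] (W : Subgroup V)
    [Fintype W] (T : Finset V) (hT : Pool.Agent.PFC.IsTv W ⊤ T) (f : V → X) :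
    ∑ t : T, ∑ w : W, f ((t : V) * (w : V)) = ∑ v : V, f v := by
  rw [← Fintype.sum_prod_type' (f := fun (t : T) (w : W) => f ((t : V) * (w : V)))]
  refine Function.Bijective.sum_comp (e := fun p : T × W => (p.1 : V) * (p.2 : V)) ?_ f
  refine ⟨?_, ?_⟩
  · rintro ⟨⟨t, ht⟩, ⟨w, hw⟩⟩ ⟨⟨t', ht'⟩, ⟨w', hw'⟩⟩ h
    have h' : t * w = t' * w' := h
    obtain ⟨s, -, hs⟩ := hT.2 (t * w) (Subgroup.mem_top _)
    have e1 : t = s := hs t ⟨ht, by rw [inv_mul_cancel_left]; exact hw⟩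
    have e2 : t' = s := hs t' ⟨ht', by rw [h', inv_mul_cancel_left]; exact hw'⟩
    have e3 : t = t' := e1.trans e2.symm
    subst e3
    have e4 : w = w' := mul_left_cancel h'
    subst e4
    rfl
  · intro v
    obtain ⟨s, ⟨hs1, hs2⟩, -⟩ := hT.2 v (Subgroup.mem_top _)
    exact ⟨(⟨s, hs1⟩, ⟨s⁻¹ * v, hs2⟩), mul_inv_cancel_left s v⟩

theorem wgf : WgfStmt := by
  intro F V E A _ _ _ _ _ _ _ φ W _ z tx T hT D ho hc hc'
  refine ⟨tx.Om, tx.fOm, tx.aOm, ⟨?_⟩⟩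
  letI := tx.fOm
  letI := tx.aOm
  have ho' : ∀ w : W, D.om w⁻¹ = vv φ z (w : V)⁻¹ := fun w => ho w⁻¹
  refine { m := tx.m, τ := tx.τ, m1 := ?_, t1 := ?_, id := ?_ }
  · intro w ω
    rw [ho, ho']
    exact tx.m_eq w ω
  · intro w ω a
    rw [ho, ho']
    exact tx.τ_eq w ω a
  · intro a
    rw [← tx.hw T hT a, Fintype.sum_prod_type]
    refine Finset.sum_congr rfl fun h _ => ?_
    rw [← Finset.sum_coe_sort T (fun t => ∑ g : E, ∑ v : V, ∑ ω,
      tx.τ ω (tx.j (vv φ z t⁻¹ * D6.ni (D0 φ z) h) * a *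
        tx.j (CP.n (D0 φ z) g * vv φ z v)) •
        (tx.j (CP.n (D0 φ z) h * vv φ z t) * tx.m ω * tx.j (vv φ z v⁻¹ * D6.ni (D0 φ z) g)))]
    refine Finset.sum_congr rfl fun t _ => ?_
    rw [Fintype.sum_prod_type]
    refine Finset.sum_congr rfl fun g _ => ?_
    rw [← sum_tw W T hT]
    refine Finset.sum_congr rfl fun t' _ => Finset.sum_congr rfl fun w _ =>
      Finset.sum_congr rfl fun ω _ => ?_
    have e1 : D.cf (g, t') * D.om w = CP.n (D0 φ z) g * vv φ z ((t' : V) * (w : V)) := by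
      rw [hc, ho, mul_assoc, map_mul]
    have e2 : D.om w⁻¹ * D.cf' (g, t') =
        vv φ z ((t' : V) * (w : V))⁻¹ * D6.ni (D0 φ z) g := by
      rw [hc', ho', ← mul_assoc, ← map_mul, mul_inv, mul_comm (w : V)⁻¹]
    rw [e1, e2, hc, hc']

end Pool.Agent.PFD.H92
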