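import Pool.Agent.PFD.StmtsD1
import Pool.Agent.PFD.D1.Key

/-!
# Squad PFD, block D1: row S1A (helper92)
-/

open scoped BigOperators

noncomputable section

namespace Pool.Agent.PFD.H92

open Pool.Agent.PFC.B1

variable {R B A I J N : Type} [CommRing R] [Ring B] [Algebra R B] [Ring A] [Algebra R A]
    [Fintype I] [Fintype J] [Fintype N]

/-- the bilinear function `T (c1 * j p * c2 * j q)` -/
theorem bilT (D : Net R B A I J N) (c1 c2 : A) :
    Bil R (fun p q : B => D.T (c1 * D.j p * c2 * D.j q)) :=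
  ⟨fun a a' b => by simp only [map_add, mul_add, add_mul, D.T_add],
    fun a b b' => by simp only [map_add, mul_add, D.T_add],
    fun r a b => by
      simp only [map_smul, mul_smul_comm, smul_mul_assoc, D.T_smul, smul_eq_mul],
    fun r a b => by
      simp only [map_smul, mul_smul_comm, D.T_smul, smul_eq_mul]⟩

/-- composition of a bilinear function with a multiplication in the second slot -/
theorem bil_r {F : B → B → R} (h : Bil R F) (x : B) : Bil R (fun p q => F p (x * q)) :=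
  ⟨fun a a' b => h.a1 a a' _, fun a b b' => by simp only [mul_add]; exact h.a2 _ _ _,
    fun r a b => h.s1 r a _, fun r a b => by
      simp only [mul_smul_comm]; exact h.s2 _ _ _⟩

theorem bil_l {F : B → B → R} (h : Bil R F) (x : B) : Bil R (fun p q => F (x * p) q) :=
  ⟨fun a a' b => by simp only [mul_add]; exact h.a1 _ _ _, fun a b b' => h.a2 _ _ _,
    fun r a b => by
      simp only [mul_smul_comm]; exact h.s1 _ _ _, fun r a b => h.s2 _ _ _⟩

/-- the sum over `κ` of `T (c1 κ1 c2 κ2)` -/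
theorem s1_eq (D : Net R B A I J N) (v : B →ₗ[R] B) :
    D.S1 v = ∑ r, ∑ i, ∑ k, D.T (D.y r * D.j (D.c.b i * D.c.b k) * D.Ry v (D.x r) *
      D.j (D.c.b' i * D.c.b' k)) := by
  refine Finset.sum_congr rfl fun r _ => Finset.sum_congr rfl fun i _ =>
    Finset.sum_congr rfl fun k _ => ?_
  rw [mul_assoc, mul_assoc, mul_assoc, mul_assoc, D.T_comm, map_mul, map_mul]
  simp only [Net.u, Net.u', mul_assoc]

theorem e_eq (D : Net R B A I J N) (z : B) :
    D.E z = ∑ r, ∑ i, ∑ k, D.T (D.y r * D.j (D.c.b i * D.c.b k) * D.x r *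
      D.j (z * (D.c.b' i * D.c.b' k))) := by
  refine Finset.sum_congr rfl fun r _ => Finset.sum_congr rfl fun i _ =>
    Finset.sum_congr rfl fun k _ => ?_
  rw [mul_assoc, mul_assoc, mul_assoc, mul_assoc, mul_assoc, D.T_comm, map_mul, map_mul, map_mul]
  simp only [Net.u, Net.u', mul_assoc]

/-- the sum `S'` -/
def s' (D : Net R B A I J N) (v : B →ₗ[R] B) : R :=
  ∑ r, ∑ i, ∑ k, D.T (D.y r * D.j (D.c.b' i * D.c.b' k) * D.Ly v (D.x r) *
      D.j (D.c.b i * D.c.b k))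

theorem s'_eq (hkap : KapStmt) (D : Net R B A I J N) (v : B →ₗ[R] B) : s' D v = D.S1 v := by
  -- left side
  have eL : s' D v = ∑ r, ∑ s, ∑ i, ∑ l, D.T (D.u i * D.x s * D.u l * D.x r) *
      ∑ i', ∑ k', D.T (D.y r * D.j (D.c.b' i' * D.c.b' k') * (D.j (v (D.c.b' l)) * D.y s *
        D.u' i) * D.j (D.c.b i' * D.c.b k')) := by
    refine Finset.sum_congr rfl fun r _ => ?_
    have e0 : ∀ i' k', D.T (D.y r * D.j (D.c.b' i' * D.c.b' k') * D.Ly v (D.x r) *
        D.j (D.c.b i' * D.c.b k')) = ∑ s, ∑ i, ∑ l, D.T (D.u i * D.x s * D.u l * D.x r) *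
          D.T (D.y r * D.j (D.c.b' i' * D.c.b' k') * (D.j (v (D.c.b' l)) * D.y s *
        D.u' i) * D.j (D.c.b i' * D.c.b k')) := fun i' k' => by
      rw [Net.Ly, Finset.mul_sum, Finset.sum_mul, D.T_sum]
      refine Finset.sum_congr rfl fun s _ => ?_
      rw [Finset.mul_sum, Finset.sum_mul, D.T_sum]
      refine Finset.sum_congr rfl fun i _ => ?_
      rw [Finset.mul_sum, Finset.sum_mul, D.T_sum]
      refine Finset.sum_congr rfl fun l _ => ?_
      rw [mul_smul_comm, smul_mul_assoc, D.T_smul]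
    calc _ = ∑ i', ∑ k', ∑ s, ∑ i, ∑ l, D.T (D.u i * D.x s * D.u l * D.x r) *
          D.T (D.y r * D.j (D.c.b' i' * D.c.b' k') * (D.j (v (D.c.b' l)) * D.y s *
        D.u' i) * D.j (D.c.b i' * D.c.b k')) :=
          Finset.sum_congr rfl fun i' _ => Finset.sum_congr rfl fun k' _ => e0 i' k'
      _ = ∑ i', ∑ s, ∑ k', ∑ i, ∑ l, D.T (D.u i * D.x s * D.u l * D.x r) *
          D.T (D.y r * D.j (D.c.b' i' * D.c.b' k') * (D.j (v (D.c.b' l)) * D.y s *
        D.u' i) * D.j (D.c.b i' * D.c.b k')) :=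
          Finset.sum_congr rfl fun i' _ => Finset.sum_comm
      _ = ∑ s, ∑ i', ∑ k', ∑ i, ∑ l, D.T (D.u i * D.x s * D.u l * D.x r) *
          D.T (D.y r * D.j (D.c.b' i' * D.c.b' k') * (D.j (v (D.c.b' l)) * D.y s *
        D.u' i) * D.j (D.c.b i' * D.c.b k')) := Finset.sum_comm
      _ = ∑ s, ∑ i', ∑ i, ∑ k', ∑ l, D.T (D.u i * D.x s * D.u l * D.x r) *
          D.T (D.y r * D.j (D.c.b' i' * D.c.b' k') * (D.j (v (D.c.b' l)) * D.y s *
        D.u' i) * D.j (D.c.b i' * D.c.b k')) :=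
          Finset.sum_congr rfl fun s _ => Finset.sum_congr rfl fun i' _ => Finset.sum_comm
      _ = ∑ s, ∑ i, ∑ i', ∑ k', ∑ l, D.T (D.u i * D.x s * D.u l * D.x r) *
          D.T (D.y r * D.j (D.c.b' i' * D.c.b' k') * (D.j (v (D.c.b' l)) * D.y s *
        D.u' i) * D.j (D.c.b i' * D.c.b k')) :=
          Finset.sum_congr rfl fun s _ => Finset.sum_comm
      _ = ∑ s, ∑ i, ∑ i', ∑ l, ∑ k', D.T (D.u i * D.x s * D.u l * D.x r) *
          D.T (D.y r * D.j (D.c.b' i' * D.c.b' k') * (D.j (v (D.c.b' l)) * D.y s *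
        D.u' i) * D.j (D.c.b i' * D.c.b k')) :=
          Finset.sum_congr rfl fun s _ => Finset.sum_congr rfl fun i _ =>
            Finset.sum_congr rfl fun i' _ => Finset.sum_comm
      _ = ∑ s, ∑ i, ∑ l, ∑ i', ∑ k', D.T (D.u i * D.x s * D.u l * D.x r) *
          D.T (D.y r * D.j (D.c.b' i' * D.c.b' k') * (D.j (v (D.c.b' l)) * D.y s *
        D.u' i) * D.j (D.c.b i' * D.c.b k')) :=
          Finset.sum_congr rfl fun s _ => Finset.sum_congr rfl fun i _ => Finset.sum_comm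
      _ = _ := by
          refine Finset.sum_congr rfl fun s _ => Finset.sum_congr rfl fun i _ =>
            Finset.sum_congr rfl fun l _ => ?_
          rw [Finset.mul_sum]
          exact Finset.sum_congr rfl fun i' _ => by rw [Finset.mul_sum]
  have eR : D.S1 v = ∑ r, ∑ s, ∑ i, ∑ l, D.T (D.u i * D.x s * D.u l * D.x r) *
      ∑ i', ∑ k', D.T (D.y r * D.j (D.c.b i' * D.c.b k') * (D.u' l * D.y s *
        D.j (v (D.c.b' i))) * D.j (D.c.b' i' * D.c.b' k')) := by
    rw [s1_eq]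
    refine Finset.sum_congr rfl fun r _ => ?_
    have e0 : ∀ i' k', D.T (D.y r * D.j (D.c.b i' * D.c.b k') * D.Ry v (D.x r) *
        D.j (D.c.b' i' * D.c.b' k')) = ∑ s, ∑ i, ∑ l, D.T (D.u i * D.x s * D.u l * D.x r) *
          D.T (D.y r * D.j (D.c.b i' * D.c.b k') * (D.u' l * D.y s *
        D.j (v (D.c.b' i))) * D.j (D.c.b' i' * D.c.b' k')) := fun i' k' => by
      rw [Net.Ry, Finset.mul_sum, Finset.sum_mul, D.T_sum]
      refine Finset.sum_congr rfl fun s _ => ?_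
      rw [Finset.mul_sum, Finset.sum_mul, D.T_sum]
      refine Finset.sum_congr rfl fun i _ => ?_
      rw [Finset.mul_sum, Finset.sum_mul, D.T_sum]
      refine Finset.sum_congr rfl fun l _ => ?_
      rw [mul_smul_comm, smul_mul_assoc, D.T_smul]
    calc _ = ∑ i', ∑ k', ∑ s, ∑ i, ∑ l, D.T (D.u i * D.x s * D.u l * D.x r) *
          D.T (D.y r * D.j (D.c.b i' * D.c.b k') * (D.u' l * D.y s *
        D.j (v (D.c.b' i))) * D.j (D.c.b' i' * D.c.b' k')) :=
          Finset.sum_congr rfl fun i' _ => Finset.sum_congr rfl fun k' _ => e0 i' k'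
      _ = ∑ i', ∑ s, ∑ k', ∑ i, ∑ l, D.T (D.u i * D.x s * D.u l * D.x r) *
          D.T (D.y r * D.j (D.c.b i' * D.c.b k') * (D.u' l * D.y s *
        D.j (v (D.c.b' i))) * D.j (D.c.b' i' * D.c.b' k')) :=
          Finset.sum_congr rfl fun i' _ => Finset.sum_comm
      _ = ∑ s, ∑ i', ∑ k', ∑ i, ∑ l, D.T (D.u i * D.x s * D.u l * D.x r) *
          D.T (D.y r * D.j (D.c.b i' * D.c.b k') * (D.u' l * D.y s *
        D.j (v (D.c.b' i))) * D.j (D.c.b' i' * D.c.b' k')) := Finset.sum_comm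
      _ = ∑ s, ∑ i', ∑ i, ∑ k', ∑ l, D.T (D.u i * D.x s * D.u l * D.x r) *
          D.T (D.y r * D.j (D.c.b i' * D.c.b k') * (D.u' l * D.y s *
        D.j (v (D.c.b' i))) * D.j (D.c.b' i' * D.c.b' k')) :=
          Finset.sum_congr rfl fun s _ => Finset.sum_congr rfl fun i' _ => Finset.sum_comm
      _ = ∑ s, ∑ i, ∑ i', ∑ k', ∑ l, D.T (D.u i * D.x s * D.u l * D.x r) *
          D.T (D.y r * D.j (D.c.b i' * D.c.b k') * (D.u' l * D.y s *
        D.j (v (D.c.b' i))) * D.j (D.c.b' i' * D.c.b' k')) :=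
          Finset.sum_congr rfl fun s _ => Finset.sum_comm
      _ = ∑ s, ∑ i, ∑ i', ∑ l, ∑ k', D.T (D.u i * D.x s * D.u l * D.x r) *
          D.T (D.y r * D.j (D.c.b i' * D.c.b k') * (D.u' l * D.y s *
        D.j (v (D.c.b' i))) * D.j (D.c.b' i' * D.c.b' k')) :=
          Finset.sum_congr rfl fun s _ => Finset.sum_congr rfl fun i _ =>
            Finset.sum_congr rfl fun i' _ => Finset.sum_comm
      _ = ∑ s, ∑ i, ∑ l, ∑ i', ∑ k', D.T (D.u i * D.x s * D.u l * D.x r) *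
          D.T (D.y r * D.j (D.c.b i' * D.c.b k') * (D.u' l * D.y s *
        D.j (v (D.c.b' i))) * D.j (D.c.b' i' * D.c.b' k')) :=
          Finset.sum_congr rfl fun s _ => Finset.sum_congr rfl fun i _ => Finset.sum_comm
      _ = _ := by
          refine Finset.sum_congr rfl fun s _ => Finset.sum_congr rfl fun i _ =>
            Finset.sum_congr rfl fun l _ => ?_
          rw [Finset.mul_sum]
          exact Finset.sum_congr rfl fun i' _ => by rw [Finset.mul_sum]
  rw [eL, eR, Finset.sum_comm]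
  refine Finset.sum_congr rfl fun r _ => Finset.sum_congr rfl fun s _ => ?_
  rw [Finset.sum_comm]
  refine Finset.sum_congr rfl fun i _ => Finset.sum_congr rfl fun l _ => ?_
  -- now: the names `r, s` and `i, l` are exchanged
  have h1 : D.T (D.u l * D.x r * D.u i * D.x s) = D.T (D.u i * D.x s * D.u l * D.x r) := by
    rw [mul_assoc, D.T_comm, ← mul_assoc]
  rw [h1]
  congr 1
  -- the two sums over `κ`
  have hF := bilT D (D.y s) (D.y r)
  -- F p q = T (y s * p * y r * q)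
  obtain ⟨_, k2, -, -, -⟩ := hkap R B A I J N R D
    (fun p q => D.T (D.y s * D.j p * D.y r * D.j (D.c.b' l * q))) (bil_r hF (D.c.b' l))
  obtain ⟨_, -, k3, -, -⟩ := hkap R B A I J N R D
    (fun p q => D.T (D.y s * D.j (v (D.c.b' i) * p) * D.y r * D.j q)) (bil_l hF (v (D.c.b' i)))
  have k2' := k2 (v (D.c.b' i))
  have k3' := k3 (D.c.b' l)
  calc ∑ i', ∑ k', D.T (D.y s * D.j (D.c.b' i' * D.c.b' k') * (D.j (v (D.c.b' i)) * D.y r *
        D.u' l) * D.j (D.c.b i' * D.c.b k'))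
      = ∑ i', ∑ k', D.T (D.y s * D.j (D.c.b' i' * D.c.b' k' * v (D.c.b' i)) * D.y r *
          D.j (D.c.b' l * (D.c.b i' * D.c.b k'))) := by
        refine Finset.sum_congr rfl fun i' _ => Finset.sum_congr rfl fun k' _ => ?_
        rw [map_mul D.j (D.c.b' i' * D.c.b' k') (v (D.c.b' i)), map_mul D.j (D.c.b' l)]
        simp only [Net.u', mul_assoc]
    _ = ∑ i', ∑ k', D.T (D.y s * D.j (v (D.c.b' i) * (D.c.b' i' * D.c.b' k')) * D.y r *
          D.j (D.c.b' l * (D.c.b i' * D.c.b k'))) := k2'.symm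
    _ = ∑ i', ∑ k', D.T (D.y s * D.j (v (D.c.b' i) * (D.c.b' i' * D.c.b' k')) * D.y r *
          D.j (D.c.b i' * D.c.b k' * D.c.b' l)) := k3'
    _ = ∑ i', ∑ k', D.T (D.y r * D.j (D.c.b i' * D.c.b k') * (D.u' l * D.y s *
        D.j (v (D.c.b' i))) * D.j (D.c.b' i' * D.c.b' k')) := by
        refine Finset.sum_congr rfl fun i' _ => Finset.sum_congr rfl fun k' _ => ?_
        rw [mul_assoc (D.y s * D.j (v (D.c.b' i) * (D.c.b' i' * D.c.b' k'))), D.T_comm,
          map_mul D.j (D.c.b i' * D.c.b k'), map_mul D.j (v (D.c.b' i))]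
        simp only [Net.u', mul_assoc]

theorem s1a (hadj : AdjStmt) (hcon : ConStmt) (hkap : KapStmt) : S1aStmt := by
  intro R B A I J N _ _ _ _ _ _ _ _ D v De hv
  obtain ⟨-, -, -, -, -, -, -, -, cr, cl⟩ := hcon R B A I J N D v De hv
  have hadj' := hadj R B A I J N D v De hv
  -- `S1 D.op`
  have e1 : D.op.S1 v = ∑ r, ∑ i, ∑ k, - D.T (D.y r * (D.Ly v (D.j (D.c.b' i * D.c.b' k) *
      D.x r * D.j (D.c.b i * D.c.b k)) + D.j De * (D.j (D.c.b' i * D.c.b' k) *
      D.x r * D.j (D.c.b i * D.c.b k)))) := by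
    rw [s1_eq]
    refine Finset.sum_congr rfl fun r _ => Finset.sum_congr rfl fun i _ =>
      Finset.sum_congr rfl fun k _ => ?_
    have hp : D.pr (D.j (D.c.b' i * D.c.b' k) * D.x r * D.j (D.c.b i * D.c.b k)) = 0 := by
      rw [D.pr_lr, D.px, mul_zero, zero_mul]
    have h0 := hadj' (D.y r) (D.j (D.c.b' i * D.c.b' k) * D.x r * D.j (D.c.b i * D.c.b k))
    rw [hp, map_zero, sub_zero] at h0
    rw [← h0]
    show D.T (D.x r * D.j (D.c.b i * D.c.b k) * D.op.Ry v (D.y r) *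
      D.j (D.c.b' i * D.c.b' k)) = _
    rw [mul_assoc (D.x r * D.j (D.c.b i * D.c.b k)), D.T_comm]
    simp only [mul_assoc]
  have e2 : ∀ r i k, D.Ly v (D.j (D.c.b' i * D.c.b' k) * D.x r * D.j (D.c.b i * D.c.b k)) =
      D.j (v (D.c.b' i * D.c.b' k)) * D.x r * D.j (D.c.b i * D.c.b k) +
        D.j (D.c.b' i * D.c.b' k) * D.Ly v (D.x r) * D.j (D.c.b i * D.c.b k) := fun r i k => by
    rw [cr, cl, D.px, map_zero, sub_zero, add_mul]
  have e3 : D.op.S1 v = - (D.e1 v + s' D v + ∑ r, ∑ i, ∑ k, D.T (D.y r *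
      D.j (De * (D.c.b' i * D.c.b' k)) * D.x r * D.j (D.c.b i * D.c.b k))) := by
    rw [e1, Net.e1, s', ← Finset.sum_add_distrib, ← Finset.sum_add_distrib,
      ← Finset.sum_neg_distrib]
    refine Finset.sum_congr rfl fun r _ => ?_
    rw [← Finset.sum_add_distrib, ← Finset.sum_add_distrib, ← Finset.sum_neg_distrib]
    refine Finset.sum_congr rfl fun i _ => ?_
    rw [← Finset.sum_add_distrib, ← Finset.sum_add_distrib, ← Finset.sum_neg_distrib]
    refine Finset.sum_congr rfl fun k _ => ?_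
    rw [e2, mul_add, mul_add, D.T_add, D.T_add, map_mul D.j De]
    simp only [mul_assoc]
  -- the last sum is `E De`
  have e4 : ∑ r, ∑ i, ∑ k, D.T (D.y r * D.j (De * (D.c.b' i * D.c.b' k)) * D.x r *
      D.j (D.c.b i * D.c.b k)) = D.E De := by
    rw [e_eq]
    refine Finset.sum_congr rfl fun r _ => ?_
    have hF := bilT D (D.y r) (D.x r)
    obtain ⟨-, -, -, k4, -⟩ := hkap R B A I J N R D _ hF
    obtain ⟨k1, -, -, -, -⟩ := hkap R B A I J N R D _ (bil_r hF De)
    exact (k4 De hv.cen).trans k1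
  rw [e3, e4, s'_eq hkap]
  ring

end Pool.Agent.PFD.H92
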